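import Mathlib

/-!
# MP_9880a5_co: connected self 2-distance graphs need not be 2-connected

The 2-distance graph of `G` joins two vertices exactly when they are at distance two in `G`.
We exhibit a connected graph on 13 vertices (it has 13 edges, a single cycle, which is a
triangle, and three leaves) which is isomorphic to its own 2-distance graph and has a cut vertex.
-/

namespace Pool.Agent.Results.MP_9880a5_co.SelfTwoDistance

/-- The 2-distance graph of `G`: two vertices are adjacent when their distance in `G` is two. -/
def twoDist {V : Type*} (G : SimpleGraph V) : SimpleGraph V where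
  Adj x y := G.dist x y = 2
  symm := ⟨fun x y h => by rw [SimpleGraph.dist_comm]; exact h⟩
  loopless := ⟨fun x h => by simp at h⟩

/-- `G` is a self 2-distance graph. -/
def IsSelfTwoDist {V : Type*} (G : SimpleGraph V) : Prop := Nonempty (twoDist G ≃g G)

/-- `v` is a cut vertex of the connected graph `G`: deleting it disconnects the graph. -/
def IsCutVertex {V : Type*} (G : SimpleGraph V) (v : V) : Prop :=
  G.Connected ∧ ¬ (G.induce {w | w ≠ v}).Preconnected

/-- 2-connectedness: at least three vertices, and deleting any vertex leaves a connected graph. -/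
def IsTwoConnected {V : Type*} [Fintype V] (G : SimpleGraph V) : Prop :=
  3 ≤ Fintype.card V ∧ ∀ v : V, (G.induce {w | w ≠ v}).Connected

lemma dist_two_iff {V : Type*} (G : SimpleGraph V) (x y : V) :
    G.dist x y = 2 ↔ x ≠ y ∧ ¬ G.Adj x y ∧ ∃ z, G.Adj x z ∧ G.Adj z y := by
  constructor
  · intro h
    have hne : x ≠ y := by
      rintro rfl
      simp at h
    have hadj : ¬ G.Adj x y := by
      intro ha
      have := SimpleGraph.dist_eq_one_iff_adj.2 ha
      omega
    have hr : G.Reachable x y := by
      by_contra hr
      rw [SimpleGraph.dist_eq_zero_of_not_reachable hr] at h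
      omega
    obtain ⟨p, hp⟩ := hr.exists_walk_length_eq_dist
    rw [h] at hp
    refine ⟨hne, hadj, ?_⟩
    cases p with
    | nil => simp at hp
    | cons h1 q =>
      cases q with
      | nil => simp at hp
      | cons h2 r =>
        cases r with
        | nil => exact ⟨_, h1, h2⟩
        | cons h3 s => simp at hp
  · rintro ⟨hne, hadj, z, h1, h2⟩
    have hw : G.dist x y ≤ 2 := by
      have := SimpleGraph.dist_le (SimpleGraph.Walk.cons h1 (SimpleGraph.Walk.cons h2 .nil))
      simpa using this
    have hr : G.Reachable x y :=
      ⟨SimpleGraph.Walk.cons h1 (SimpleGraph.Walk.cons h2 .nil)⟩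
    have h0 : G.dist x y ≠ 0 := by
      intro h0
      rcases SimpleGraph.dist_eq_zero_iff_eq_or_not_reachable.1 h0 with h | h
      · exact hne h
      · exact h hr
    have h1' : G.dist x y ≠ 1 := by
      intro h1
      exact hadj (SimpleGraph.dist_eq_one_iff_adj.1 h1)
    omega

/-- The 13 edges of the counterexample. -/
def edgeB (x y : Fin 13) : Bool :=
  let L : List (Fin 13 × Fin 13) :=
    [(0, 5), (0, 7), (1, 9), (1, 10), (2, 4), (2, 6), (2, 12), (3, 9), (4, 6), (5, 9),
      (6, 8), (7, 8), (10, 11)]
  L.contains (x, y) || L.contains (y, x)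

/-- The counterexample. -/
def Gam : SimpleGraph (Fin 13) where
  Adj x y := edgeB x y = true
  symm := ⟨by decide⟩
  loopless := ⟨by decide⟩

instance : DecidableRel Gam.Adj := fun x y => inferInstanceAs (Decidable (edgeB x y = true))

/-- The isomorphism is the cyclic shift. -/
lemma shift_adj : ∀ x y : Fin 13, Gam.Adj (x + 1) (y + 1) ↔
    (x ≠ y ∧ ¬ Gam.Adj x y ∧ ∃ z, Gam.Adj x z ∧ Gam.Adj z y) := by
  decide +kernel

/-- The next vertex on a path towards `0`. -/
def par : Fin 13 → Fin 13 := ![0, 9, 6, 9, 6, 0, 8, 0, 7, 5, 1, 10, 2]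

lemma par_adj : ∀ x : Fin 13, x ≠ 0 → Gam.Adj x (par x) := by decide +kernel

lemma par_iter : ∀ x : Fin 13, par^[6] x = 0 := by decide +kernel

lemma reach_iter (x : Fin 13) : ∀ k : ℕ, Gam.Reachable x (par^[k] x) := by
  intro k
  induction k with
  | zero => exact SimpleGraph.Reachable.refl x
  | succ k ih =>
    rw [Function.iterate_succ_apply']
    by_cases h : par^[k] x = 0
    · rw [h] at ih ⊢
      have : par 0 = 0 := by decide
      rw [this]
      exact ih
    · exact ih.trans (par_adj _ h).reachable

lemma gam_connected : Gam.Connected := by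
  rw [SimpleGraph.connected_iff_exists_forall_reachable]
  refine ⟨0, fun x => ?_⟩
  have := reach_iter x 6
  rw [par_iter] at this
  exact this.symm

/-- One side of the cut vertex `0`. -/
def side : Fin 13 → Bool := ![false, true, false, true, false, true, false, false, false, true,
  true, true, false]

lemma side_adj : ∀ x y : Fin 13, x ≠ 0 → y ≠ 0 → Gam.Adj x y → side x = side y := by
  decide +kernel

lemma gam_cut : IsCutVertex Gam 0 := by
  refine ⟨gam_connected, ?_⟩
  intro h
  have hr := h ⟨5, by simp⟩ ⟨7, by simp⟩
  have key : ∀ (u v : {w : Fin 13 | w ≠ 0}), (Gam.induce {w | w ≠ 0}).Reachable u v →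
      side u = side v := by
    intro u v huv
    obtain ⟨p⟩ := huv
    induction p with
    | nil => rfl
    | @cons a b c hab q ih =>
      rw [← ih]
      exact side_adj a b a.2 b.2 hab
  have := key _ _ hr
  revert this
  decide

lemma gam_self : IsSelfTwoDist Gam := by
  refine ⟨⟨Equiv.addRight 1, ?_⟩⟩
  intro x y
  have h := shift_adj x y
  rw [← dist_two_iff] at h
  exact h

/-- There is a connected graph on 13 vertices which is isomorphic to its 2-distance graph and has
a cut vertex; so connected self 2-distance graphs need not be 2-connected. -/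
theorem result :
    (∃ G : SimpleGraph (Fin 13), G.Connected ∧ IsSelfTwoDist G ∧ ∃ v, IsCutVertex G v) ∧
    ¬ ∀ (V : Type) [Fintype V] (G : SimpleGraph V), G.Connected → 2 ≤ Fintype.card V →
        IsSelfTwoDist G → IsTwoConnected G := by
  refine ⟨⟨Gam, gam_connected, gam_self, 0, gam_cut⟩, ?_⟩
  intro h
  have h2 := h (Fin 13) Gam gam_connected (by simp) gam_self
  exact gam_cut.2 (h2.2 0).preconnected

end Pool.Agent.Results.MP_9880a5_co.SelfTwoDistance
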